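import Mathlib
import Pool.Agent.Y729.AE.Ext

/-!
# The field of a point of order two of maximal degree
-/

set_option autoImplicit false

namespace Pool.Agent.Y729.ST

open Module Polynomial
open Pool.Agent.TH876.FH (FullTwo)

section

variable {K W : Type} [Field K] [Field W] [Algebra K W]

/-- the degree of a finite compositum -/
theorem finrank_finset_sup {ι : Type} (s : Finset ι) (G : ι → IntermediateField K W) :
    finrank K (s.sup G : IntermediateField K W) ≤ ∏ i ∈ s, finrank K (G i) := by
  classical
  induction s using Finset.induction_on with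
  | empty =>
    rw [Finset.sup_empty, Finset.prod_empty, IntermediateField.finrank_bot]
  | insert a s ha ih =>
    rw [Finset.sup_insert, Finset.prod_insert ha]
    exact (IntermediateField.finrank_sup_le _ _).trans (Nat.mul_le_mul_left _ ih)

/-- the degree of the normal closure -/
theorem finrank_normalClosure_le [CharZero K] [IsAlgClosed W] (F : IntermediateField K W)
    [FiniteDimensional K F] :
    finrank K (IntermediateField.normalClosure K F W) ≤ finrank K F ^ finrank K F := by
  classical
  rw [normalClosure_def]
  have h1 : (⨆ f : F →ₐ[K] W, f.fieldRange) =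
      (Finset.univ : Finset (F →ₐ[K] W)).sup fun f => f.fieldRange :=
    (Finset.sup_univ_eq_iSup _).symm
  rw [h1]
  refine (finrank_finset_sup _ _).trans (le_of_eq ?_)
  have h2 : ∀ f ∈ (Finset.univ : Finset (F →ₐ[K] W)), finrank K f.fieldRange = finrank K F := by
    intro f _
    exact (LinearEquiv.finrank_eq (AlgEquiv.ofInjectiveField f).toLinearEquiv).symm
  rw [Finset.prod_congr rfl h2, Finset.prod_const, Finset.card_univ, AlgHom.card]

end

section

variable {L : Type} [Field L] [CharZero L]

/-- the three roots of the two-division polynomial -/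
theorem three_roots (E : WeierstrassCurve L) (hE : E.Δ ≠ 0) (W : Type) [Field W] [Algebra L W]
    [IsAlgClosed W] : ∃ e : Fin 3 → W, Function.Injective e ∧
      ∀ i, aeval (e i) E.twoTorsionPolynomial.toPoly = 0 := by
  have ha : E.twoTorsionPolynomial.a ≠ 0 := by
    show (4 : L) ≠ 0
    norm_num
  obtain ⟨x, y, z, h3⟩ := (Cubic.splits_iff_roots_eq_three (φ := algebraMap L W) ha).1
    (IsAlgClosed.splits _)
  have hd : E.twoTorsionPolynomial.discr ≠ 0 := by
    rw [WeierstrassCurve.twoTorsionPolynomial_discr]
    exact mul_ne_zero (by norm_num) hE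
  obtain ⟨h1, h2, h4⟩ := (Cubic.discr_ne_zero_iff_roots_ne ha h3).1 hd
  have hroot : ∀ w, w ∈ (Cubic.map (algebraMap L W) E.twoTorsionPolynomial).roots →
      aeval w E.twoTorsionPolynomial.toPoly = 0 := by
    intro w hw
    rw [Cubic.map_roots] at hw
    have := (mem_roots'.1 hw).2
    rwa [IsRoot.def, eval_map_algebraMap] at this
  refine ⟨![x, y, z], ?_, ?_⟩
  · intro i j hij
    fin_cases i <;> fin_cases j <;> simp at hij <;> first
      | rfl
      | exact absurd hij h1
      | exact absurd hij h2
      | exact absurd hij h4
      | exact absurd hij.symm h1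
      | exact absurd hij.symm h2
      | exact absurd hij.symm h4
  · intro i
    apply hroot
    rw [h3]
    fin_cases i <;> simp

theorem poly_eval (E : WeierstrassCurve L) {W : Type} [Field W] [Algebra L W] (x : W) :
    aeval x E.twoTorsionPolynomial.toPoly = 4 * x ^ 3 + algebraMap L W E.b₂ * x ^ 2 +
      2 * algebraMap L W E.b₄ * x + algebraMap L W E.b₆ := by
  unfold WeierstrassCurve.twoTorsionPolynomial Cubic.toPoly
  have h4 : algebraMap L W 4 = 4 := map_ofNat _ _
  have h2 : algebraMap L W 2 = 2 := map_ofNat _ _
  simp only [map_add, map_mul, map_pow, aeval_C, aeval_X, h4, h2]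

/-- **The structure of the two-division field** -/
theorem struct (E : WeierstrassCurve L) (hE : E.Δ ≠ 0) :
    ∃ F : IntermediateField L (AlgebraicClosure L), FiniteDimensional L F ∧ finrank L F ≤ 3 ∧
      (∃ α : F, 4 * α ^ 3 + algebraMap L F E.b₂ * α ^ 2 + 2 * algebraMap L F E.b₄ * α +
        algebraMap L F E.b₆ = 0 ∧ Algebra.adjoin L {α} = ⊤) ∧
      FullTwo (E.map (algebraMap L
        (IntermediateField.normalClosure L F (AlgebraicClosure L)))) := by
  classical
  obtain ⟨e, hinj, he⟩ := three_roots E hE (AlgebraicClosure L)
  set P := E.twoTorsionPolynomial.toPoly with hP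
  have ha : E.twoTorsionPolynomial.a ≠ 0 := by
    show (4 : L) ≠ 0
    norm_num
  have hPd : P.natDegree = 3 := Cubic.natDegree_of_a_ne_zero ha
  have hP0 : P ≠ 0 := by
    intro h
    rw [h, natDegree_zero] at hPd
    omega
  have hint : ∀ x : AlgebraicClosure L, IsIntegral L x := fun x => Algebra.IsIntegral.isIntegral x
  obtain ⟨i0, -, hmax⟩ := Finset.exists_max_image (Finset.univ : Finset (Fin 3))
    (fun i => (minpoly L (e i)).natDegree) ⟨0, Finset.mem_univ _⟩
  set a := e i0 with ha0
  have hdvd : ∀ i, minpoly L (e i) ∣ P := fun i => minpoly.dvd L _ (he i)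
  set F : IntermediateField L (AlgebraicClosure L) := IntermediateField.adjoin L {a} with hF
  have hfd : FiniteDimensional L F := IntermediateField.adjoin.finiteDimensional (hint a)
  set pb := IntermediateField.adjoin.powerBasis (hint a) with hpb
  have hgen : pb.gen = IntermediateField.AdjoinSimple.gen L a :=
    IntermediateField.adjoin.powerBasis_gen (hint a)
  refine ⟨F, hfd, ?_, ⟨IntermediateField.AdjoinSimple.gen L a, ?_, ?_⟩, ?_⟩
  · rw [hF, IntermediateField.adjoin.finrank (hint a), ← hPd]
    exact natDegree_le_of_dvd (hdvd i0) hP0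
  · rw [← poly_eval]
    have h1 := he i0
    rw [← IntermediateField.AdjoinSimple.algebraMap_gen L (e i0), aeval_algebraMap_apply,
      map_eq_zero] at h1
    exact h1
  · rw [← hgen]
    exact pb.adjoin_gen_eq_top
  · set M := IntermediateField.normalClosure L F (AlgebraicClosure L) with hM
    have hmem : ∀ i, e i ∈ M := by
      intro i
      by_cases hc : minpoly L (e i) = minpoly L a
      · have hz : aeval (e i) (minpoly L pb.gen) = 0 := by
          rw [hgen, IntermediateField.minpoly_gen, ← hc]
          exact minpoly.aeval L _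
        set f : F →ₐ[L] AlgebraicClosure L := pb.lift (e i) hz with hf
        have h1 : f pb.gen = e i := pb.lift_gen _ hz
        have h2 : e i ∈ f.fieldRange := ⟨pb.gen, h1⟩
        exact AlgHom.fieldRange_le_normalClosure f h2
      · have hir : ∀ x : AlgebraicClosure L, Irreducible (minpoly L x) := fun x =>
          minpoly.irreducible (hint x)
        have hco : IsCoprime (minpoly L (e i)) (minpoly L a) := by
          rw [(hir (e i)).coprime_iff_not_dvd]
          intro h
          apply hc
          exact eq_of_monic_of_associated (minpoly.monic (hint _)) (minpoly.monic (hint _))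
            ((hir _).associated_of_dvd (hir _) h)
        have h1 : minpoly L (e i) * minpoly L a ∣ P := hco.mul_dvd (hdvd i) (hdvd i0)
        have h2 := natDegree_le_of_dvd h1 hP0
        rw [natDegree_mul (minpoly.ne_zero (hint _)) (minpoly.ne_zero (hint _)), hPd] at h2
        have h3 : (minpoly L (e i)).natDegree ≤ (minpoly L a).natDegree :=
          hmax i (Finset.mem_univ _)
        have h4 : 0 < (minpoly L (e i)).natDegree := minpoly.natDegree_pos (hint _)
        have h5 : (minpoly L (e i)).natDegree = 1 := by omega
        obtain ⟨x, hx⟩ := minpoly.natDegree_eq_one_iff.1 h5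
        rw [← hx]
        exact M.algebraMap_mem x
    refine ⟨fun i => ⟨e i, hmem i⟩, ?_, ?_⟩
    · intro i j hij
      exact hinj (congrArg Subtype.val hij)
    · intro i
      rw [WeierstrassCurve.map_b₂, WeierstrassCurve.map_b₄, WeierstrassCurve.map_b₆]
      have h1 := he i
      have h2 : e i = algebraMap M (AlgebraicClosure L) ⟨e i, hmem i⟩ := rfl
      rw [h2, aeval_algebraMap_apply, map_eq_zero, poly_eval] at h1
      exact h1

end

end Pool.Agent.Y729.ST
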